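import Mathlib

open Set Topology Filter

namespace Pool.Agent.Results.MP_5c431f_gt.IsiwataCounterexample


/-- Star of a point with respect to a family of sets. -/
def star {Y : Type*} (y : Y) (G : Set (Set Y)) : Set Y := ⋃₀ {U | U ∈ G ∧ y ∈ U}

/-- A space is developable if there is a sequence of open covers such that the stars of each
point form a neighbourhood base at the point. -/
def Developable (Y : Type*) [TopologicalSpace Y] : Prop :=
  ∃ G : ℕ → Set (Set Y), (∀ n, (∀ U ∈ G n, IsOpen U) ∧ ⋃₀ G n = univ) ∧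
    ∀ y : Y, (𝓝 y).HasBasis (fun _ : ℕ => True) (fun n => star y (G n))

/-- A perfect map: continuous, closed, surjective, with compact fibres. -/
def Perfect {X Y : Type*} [TopologicalSpace X] [TopologicalSpace Y] (f : X → Y) : Prop :=
  Continuous f ∧ IsClosedMap f ∧ Function.Surjective f ∧ ∀ y, IsCompact (f ⁻¹' {y})

theorem Perfect.comp {X Y Z : Type*} [TopologicalSpace X] [TopologicalSpace Y] [TopologicalSpace Z]
    {f : X → Y} {h : Y → Z} (hh : Perfect h) (hf : Perfect f) : Perfect (h ∘ f) := by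
  obtain ⟨hc, hcl, hs, hk⟩ := hf
  obtain ⟨hc', hcl', hs', hk'⟩ := hh
  refine ⟨hc'.comp hc, hcl'.comp hcl, hs'.comp hs, fun y => ?_⟩
  have h1 : IsProperMap f := isProperMap_iff_isClosedMap_and_compact_fibers.2 ⟨hc, hcl, hk⟩
  rw [Set.preimage_comp]
  exact h1.isCompact_preimage (hk' y)

theorem Perfect.t2 {X Y : Type*} [TopologicalSpace X] [TopologicalSpace Y] [T2Space X] {f : X → Y}
    (hf : Perfect f) : T2Space Y := by
  obtain ⟨hc, hcl, hs, hk⟩ := hf
  refine ⟨fun a b hab => ?_⟩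
  have hdisj : Disjoint (f ⁻¹' {a}) (f ⁻¹' {b}) := by
    rw [Set.disjoint_left]
    intro x hx hx'
    exact hab (hx.symm.trans hx')
  obtain ⟨U, V, hU, hV, haU, hbV, hUV⟩ := SeparatedNhds.of_isCompact_isCompact (hk a) (hk b) hdisj
  refine ⟨(f '' Uᶜ)ᶜ, (f '' Vᶜ)ᶜ, (hcl _ hU.isClosed_compl).isOpen_compl,
    (hcl _ hV.isClosed_compl).isOpen_compl, ?_, ?_, ?_⟩
  · rintro ⟨x, hx, rfl⟩
    exact hx (haU rfl)
  · rintro ⟨x, hx, rfl⟩
    exact hx (hbV rfl)
  · rw [Set.disjoint_left]
    intro y hy hy'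
    obtain ⟨x, rfl⟩ := hs y
    have hxU : x ∈ U := by
      by_contra h
      exact hy ⟨x, h, rfl⟩
    have hxV : x ∈ V := by
      by_contra h
      exact hy' ⟨x, h, rfl⟩
    exact Set.disjoint_left.1 hUV hxU hxV

theorem Perfect.locallyCompact {X Y : Type*} [TopologicalSpace X] [TopologicalSpace Y] [T2Space X]
    [LocallyCompactSpace X] {f : X → Y} (hf : Perfect f) : LocallyCompactSpace Y := by
  have := hf.t2
  obtain ⟨hc, hcl, hs, hk⟩ := hf
  have : WeaklyLocallyCompactSpace Y := by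
    refine ⟨fun y => ?_⟩
    obtain ⟨L, hL, hyL⟩ := exists_compact_superset (hk y)
    refine ⟨f '' L, hL.image hc, ?_⟩
    rw [mem_nhds_iff]
    refine ⟨(f '' (interior L)ᶜ)ᶜ, ?_, (hcl _ isOpen_interior.isClosed_compl).isOpen_compl, ?_⟩
    · intro z hz
      obtain ⟨x, rfl⟩ := hs z
      refine ⟨x, ?_, rfl⟩
      by_contra h
      exact hz ⟨x, fun h' => h (interior_subset h'), rfl⟩
    · rintro ⟨x, hx, hxy⟩
      exact hx (hyL hxy)
  infer_instance

/-- A continuous map from a Cantor cube to a `T1` developable space depends only on countably many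
coordinates. -/
theorem countable_dep {J E : Type*} [TopologicalSpace E] [T1Space E] (hE : Developable E)
    (H : (J → Bool) → E) (hH : Continuous H) :
    ∃ C : Set J, C.Countable ∧ ∀ k k' : J → Bool, (∀ j ∈ C, k j = k' j) → H k = H k' := by
  obtain ⟨G, hG, hb⟩ := hE
  have key : ∀ n : ℕ, ∃ F : Finset J, ∀ k k' : J → Bool, (∀ j ∈ F, k j = k' j) →
      H k' ∈ star (H k) (G n) := by
    intro n
    have h1 : ∀ k : J → Bool, ∃ U ∈ G n, ∃ F : Finset J, H k ∈ U ∧
        ∀ k' : J → Bool, (∀ j ∈ F, k' j = k j) → H k' ∈ U := by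
      intro k
      have : H k ∈ ⋃₀ G n := by rw [(hG n).2]; trivial
      obtain ⟨U, hU, hkU⟩ := this
      have hopen : IsOpen (H ⁻¹' U) := ((hG n).1 U hU).preimage hH
      obtain ⟨F, u, hu, hsub⟩ := isOpen_pi_iff.1 hopen k hkU
      refine ⟨U, hU, F, hkU, fun k' hk' => ?_⟩
      apply hsub
      intro j hj
      rw [hk' j hj]
      exact (hu j hj).2
    choose U hU F hkU hF using h1
    have hcov : (univ : Set (J → Bool)) ⊆ ⋃ k : J → Bool, {k' | ∀ j ∈ F k, k' j = k j} := by
      intro k _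
      rw [mem_iUnion]
      exact ⟨k, fun j _ => rfl⟩
    have hop : ∀ k : J → Bool, IsOpen {k' : J → Bool | ∀ j ∈ F k, k' j = k j} := by
      intro k
      have : {k' : J → Bool | ∀ j ∈ F k, k' j = k j} = ⋂ j ∈ F k, {k' : J → Bool | k' j = k j} := by
        ext k'
        simp
      rw [this]
      refine isOpen_biInter_finset fun j _ => ?_
      have h2 : Continuous fun k' : J → Bool => k' j := continuous_apply j
      exact (isOpen_discrete ({k j} : Set Bool)).preimage h2
    obtain ⟨t, ht⟩ := isCompact_univ.elim_finite_subcover _ hop hcov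
    classical
    refine ⟨t.biUnion F, fun k k' hkk => ?_⟩
    have hk := ht (mem_univ k)
    rw [mem_iUnion₂] at hk
    obtain ⟨a, hat, hka⟩ := hk
    refine mem_sUnion.2 ⟨U a, ⟨hU a, hF a k hka⟩, hF a k' fun j hj => ?_⟩
    rw [← hkk j (Finset.mem_biUnion.2 ⟨a, hat, hj⟩)]
    exact hka j hj
  choose F hF using key
  refine ⟨⋃ n, (F n : Set J), countable_iUnion fun n => (F n).countable_toSet, fun k k' hkk => ?_⟩
  by_contra hne
  have hnb : {H k'}ᶜ ∈ 𝓝 (H k) := isOpen_compl_singleton.mem_nhds hne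
  obtain ⟨n, -, hn⟩ := (hb (H k)).mem_iff.1 hnb
  exact hn (hF n k k' fun j hj => hkk j (mem_iUnion.2 ⟨n, hj⟩)) rfl



/-- Points: finite strings and infinite branches of the binary tree. -/
inductive Psi
  | pt (s : List Bool)
  | br (x : ℕ → Bool)

/-- The string of the first `n` values of `x`. -/
def pre (x : ℕ → Bool) (n : ℕ) : List Bool := (List.range n).map x

theorem length_pre (x : ℕ → Bool) (n : ℕ) : (pre x n).length = n := by simp [pre]

theorem pre_inj {x y : ℕ → Bool} {m n : ℕ} (h : pre x m = pre y n) :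
    m = n ∧ ∀ i < m, x i = y i := by
  have h1 : m = n := by
    have := congrArg List.length h
    rwa [length_pre, length_pre] at this
  subst h1
  refine ⟨rfl, fun i hi => ?_⟩
  have := congrArg (fun l => l[i]?) h
  simpa [pre, hi] using this

instance : TopologicalSpace Psi where
  IsOpen U := ∀ x, Psi.br x ∈ U → ∃ m, ∀ n, m ≤ n → Psi.pt (pre x n) ∈ U
  isOpen_univ := fun _ _ => ⟨0, fun _ _ => trivial⟩
  isOpen_inter := by
    intro U V hU hV x hx
    obtain ⟨m, hm⟩ := hU x hx.1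
    obtain ⟨m', hm'⟩ := hV x hx.2
    exact ⟨max m m', fun n hn => ⟨hm n (le_trans (le_max_left _ _) hn),
      hm' n (le_trans (le_max_right _ _) hn)⟩⟩
  isOpen_sUnion := by
    intro S hS x hx
    obtain ⟨U, hU, hxU⟩ := hx
    obtain ⟨m, hm⟩ := hS U hU x hxU
    exact ⟨m, fun n hn => ⟨U, hU, hm n hn⟩⟩

theorem isOpen_psi (U : Set Psi) :
    IsOpen U ↔ ∀ x, Psi.br x ∈ U → ∃ m, ∀ n, m ≤ n → Psi.pt (pre x n) ∈ U := Iff.rfl

/-- Basic neighbourhoods of a branch. -/
def bas (x : ℕ → Bool) (m : ℕ) : Set Psi := {p | p = Psi.br x ∨ ∃ n, m ≤ n ∧ p = Psi.pt (pre x n)}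

theorem isOpen_bas (x : ℕ → Bool) (m : ℕ) : IsOpen (bas x m) := by
  rw [isOpen_psi]
  rintro y (hy | ⟨n, hn, hy⟩)
  · cases hy
    exact ⟨m, fun n hn => Or.inr ⟨n, hn, rfl⟩⟩
  · cases hy

theorem br_mem_bas (x : ℕ → Bool) (m : ℕ) : Psi.br x ∈ bas x m := Or.inl rfl

theorem isOpen_pt (s : List Bool) : IsOpen ({Psi.pt s} : Set Psi) := by
  rw [isOpen_psi]
  rintro y hy
  cases hy

theorem nhds_br (x : ℕ → Bool) : (𝓝 (Psi.br x)).HasBasis (fun _ : ℕ => True) (bas x) := by
  refine ⟨fun t => ⟨fun ht => ?_, ?_⟩⟩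
  · obtain ⟨U, hUt, hU, hxU⟩ := mem_nhds_iff.1 ht
    obtain ⟨m, hm⟩ := hU x hxU
    refine ⟨m, trivial, ?_⟩
    rintro p (rfl | ⟨n, hn, rfl⟩)
    · exact hUt hxU
    · exact hUt (hm n hn)
  · rintro ⟨m, -, hm⟩
    exact mem_of_superset ((isOpen_bas x m).mem_nhds (br_mem_bas x m)) hm

theorem tendsto_pt (x : ℕ → Bool) :
    Tendsto (fun n => Psi.pt (pre x n)) atTop (𝓝 (Psi.br x)) := by
  rw [(nhds_br x).tendsto_right_iff]
  intro m _
  filter_upwards [eventually_ge_atTop m] with n hn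
  exact Or.inr ⟨n, hn, rfl⟩

theorem isCompact_bas (x : ℕ → Bool) (m : ℕ) : IsCompact (bas x m) := by
  have h1 : Tendsto (fun n => Psi.pt (pre x (n + m))) atTop (𝓝 (Psi.br x)) :=
    (tendsto_pt x).comp (tendsto_add_atTop_nat m)
  have h2 := h1.isCompact_insert_range
  convert h2 using 1
  ext p
  constructor
  · rintro (rfl | ⟨n, hn, rfl⟩)
    · exact mem_insert _ _
    · exact mem_insert_of_mem _ ⟨n - m, by simp only [Nat.sub_add_cancel hn]⟩
  · rintro (rfl | ⟨n, rfl⟩)
    · exact Or.inl rfl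
    · exact Or.inr ⟨n + m, Nat.le_add_left _ _, rfl⟩

instance : T2Space Psi := by
  refine ⟨?_⟩
  have main : ∀ p q : Psi, p ≠ q → (∃ s, p = Psi.pt s) → ∃ u v : Set Psi, IsOpen u ∧ IsOpen v ∧
      p ∈ u ∧ q ∈ v ∧ Disjoint u v := by
    rintro p q hpq ⟨s, rfl⟩
    rcases q with t | y
    · refine ⟨{Psi.pt s}, {Psi.pt t}, isOpen_pt s, isOpen_pt t, rfl, rfl, ?_⟩
      rw [Set.disjoint_singleton]
      exact hpq
    · refine ⟨{Psi.pt s}, bas y (s.length + 1), isOpen_pt s, isOpen_bas _ _, rfl,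
        br_mem_bas _ _, ?_⟩
      rw [Set.disjoint_singleton_left]
      rintro (h | ⟨n, hn, h⟩)
      · cases h
      · simp only [Psi.pt.injEq] at h
        have := congrArg List.length h
        rw [length_pre] at this
        omega
  rintro p q hpq
  rcases p with s | x
  · exact main _ _ hpq ⟨s, rfl⟩
  rcases q with t | y
  · obtain ⟨u, v, hu, hv, hpu, hqv, hd⟩ := main _ _ hpq.symm ⟨t, rfl⟩
    exact ⟨v, u, hv, hu, hqv, hpu, hd.symm⟩
  · have hxy : x ≠ y := fun h => hpq (by rw [h])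
    obtain ⟨i, hi⟩ := Function.ne_iff.1 hxy
    refine ⟨bas x (i + 1), bas y (i + 1), isOpen_bas _ _, isOpen_bas _ _, br_mem_bas _ _,
      br_mem_bas _ _, ?_⟩
    rw [Set.disjoint_left]
    rintro p (rfl | ⟨n, hn, rfl⟩) (h | ⟨n', hn', h⟩)
    · exact hpq h
    · cases h
    · cases h
    · simp only [Psi.pt.injEq] at h
      obtain ⟨h1, h2⟩ := pre_inj h
      exact hi (h2 i (by omega))

instance : LocallyCompactSpace Psi := by
  have : WeaklyLocallyCompactSpace Psi := by
    refine ⟨fun p => ?_⟩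
    rcases p with s | x
    · exact ⟨{Psi.pt s}, isCompact_singleton, (isOpen_pt s).mem_nhds rfl⟩
    · exact ⟨bas x 0, isCompact_bas x 0, (isOpen_bas x 0).mem_nhds (br_mem_bas x 0)⟩
  infer_instance

/-- The covers witnessing developability of `ℕ × Psi`. -/
def cov (m : ℕ) : Set (Set (ℕ × Psi)) :=
  {U | (∃ i s, U = {(i, Psi.pt s)}) ∨ ∃ i x, U = {i} ×ˢ bas x m}

theorem developable_D : Developable (ℕ × Psi) := by
  refine ⟨cov, fun n => ⟨?_, ?_⟩, ?_⟩
  · rintro U (⟨i, s, rfl⟩ | ⟨i, x, rfl⟩)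
    · have : ({(i, Psi.pt s)} : Set (ℕ × Psi)) = {i} ×ˢ {Psi.pt s} := by simp
      rw [this]
      exact (isOpen_discrete _).prod (isOpen_pt s)
    · exact (isOpen_discrete _).prod (isOpen_bas x n)
  · rw [eq_univ_iff_forall]
    rintro ⟨i, p⟩
    rcases p with s | x
    · exact mem_sUnion.2 ⟨_, Or.inl ⟨i, s, rfl⟩, rfl⟩
    · exact mem_sUnion.2 ⟨_, Or.inr ⟨i, x, rfl⟩, ⟨rfl, br_mem_bas _ _⟩⟩
  · rintro ⟨i, p⟩
    rcases p with s | x
    · refine ⟨fun t => ⟨fun ht => ?_, ?_⟩⟩
      · refine ⟨s.length + 1, trivial, ?_⟩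
        rintro q ⟨U, ⟨hU, hpU⟩, hqU⟩
        rcases hU with ⟨i', s', rfl⟩ | ⟨i', x', rfl⟩
        · have : q = (i, Psi.pt s) := by
            rw [mem_singleton_iff] at hpU hqU
            rw [hqU, ← hpU]
          rw [this]
          exact mem_of_mem_nhds ht
        · exfalso
          rcases hpU.2 with h | ⟨n, hn, h⟩
          · cases h
          · simp only [Psi.pt.injEq] at h
            have := congrArg List.length h
            rw [length_pre] at this
            omega
      · rintro ⟨m, -, hm⟩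
        have : ({(i, Psi.pt s)} : Set (ℕ × Psi)) ∈ 𝓝 (i, Psi.pt s) := by
          have : ({(i, Psi.pt s)} : Set (ℕ × Psi)) = {i} ×ˢ {Psi.pt s} := by simp
          rw [this]
          exact ((isOpen_discrete _).prod (isOpen_pt s)).mem_nhds ⟨rfl, rfl⟩
        refine mem_of_superset this ?_
        rintro _ rfl
        exact hm (mem_sUnion.2 ⟨_, ⟨Or.inl ⟨i, s, rfl⟩, rfl⟩, rfl⟩)
    · have hstar : ∀ m, star (i, Psi.br x) (cov m) = {i} ×ˢ bas x m := by
        intro m
        ext q
        constructor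
        · rintro ⟨U, ⟨hU, hpU⟩, hqU⟩
          rcases hU with ⟨i', s', rfl⟩ | ⟨i', x', rfl⟩
          · exfalso
            rw [mem_singleton_iff, Prod.mk.injEq] at hpU
            exact absurd hpU.2 (by simp)
          · obtain ⟨h1, h2⟩ := hpU
            rw [mem_singleton_iff] at h1
            rcases h2 with h | ⟨n, hn, h⟩
            · simp only [Psi.br.injEq] at h
              simp only at h1
              subst h1
              subst h
              exact hqU
            · cases h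
        · intro hq
          exact mem_sUnion.2 ⟨_, ⟨Or.inr ⟨i, x, rfl⟩, ⟨rfl, br_mem_bas _ _⟩⟩, hq⟩
      simp only [hstar]
      have h1 : (𝓝 (i, Psi.br x)).HasBasis (fun _ : ℕ => True) (fun m => {i} ×ˢ bas x m) := by
        rw [nhds_prod_eq, nhds_discrete, pure_prod]
        simp only [Set.singleton_prod]
        exact (nhds_br x).map _
      exact h1



/-- The space `X = (ℕ × Psi) × 2^(2^ℕ)`. -/
abbrev K := (ℕ → Bool) → Bool
abbrev XX := (ℕ × Psi) × K

/-- The zero point of the cube. -/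
def k0 : K := fun _ => false

open Classical in
/-- The unit vector at coordinate `j`. -/
noncomputable def ek (j : ℕ → Bool) : K := fun j' => if j' = j then true else false

theorem ek_ne (j : ℕ → Bool) : ek j ≠ k0 := by
  intro h
  have := congrFun h j
  simp [ek, k0] at this

open Classical in
/-- The gluing map. -/
noncomputable def rho : XX → XX
  | ((i + 1, Psi.br j), k) => if k = k0 then ((i, Psi.br j), ek j) else ((i + 1, Psi.br j), k)
  | p => p

theorem rho_succ (i : ℕ) (j : ℕ → Bool) : rho ((i + 1, Psi.br j), k0) = ((i, Psi.br j), ek j) := by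
  simp [rho]

theorem rho_ek (i : ℕ) (j : ℕ → Bool) : rho ((i, Psi.br j), ek j) = ((i, Psi.br j), ek j) := by
  rcases i with _ | i
  · rfl
  · simp [rho, ek_ne]

/-- The exceptional set. -/
def SS : Set XX := {p | ∃ i j, p = ((i, Psi.br j), k0) ∨ p = ((i, Psi.br j), ek j)}

theorem rho_cases (p : XX) : rho p = p ∨
    ∃ i j, p = ((i + 1, Psi.br j), k0) ∧ rho p = ((i, Psi.br j), ek j) := by
  obtain ⟨⟨i, p⟩, k⟩ := p
  rcases p with s | j
  · left
    rcases i with _ | i <;> rfl
  · rcases i with _ | i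
    · left; rfl
    · by_cases hk : k = k0
      · subst hk
        right
        exact ⟨i, j, rfl, rho_succ i j⟩
      · left
        simp [rho, hk]

theorem rho_eq {c x : XX} (h : rho c = rho x) : c = x ∨ x ∈ SS := by
  rcases rho_cases c with hc | ⟨i, j, hc, hc'⟩ <;> rcases rho_cases x with hx | ⟨i', j', hx, hx'⟩
  · left; rw [← hc, h, hx]
  · right
    exact ⟨i' + 1, j', Or.inl hx⟩
  · right
    refine ⟨i, j, Or.inr ?_⟩
    rw [← hx, ← h, hc']
  · right
    exact ⟨i' + 1, j', Or.inl hx⟩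

/-- Every subset of the exceptional set is closed. -/
theorem isClosed_sub {A : Set XX} (hA : A ⊆ SS) : IsClosed A := by
  rw [← isOpen_compl_iff, isOpen_iff_mem_nhds]
  rintro ⟨⟨i, p⟩, k⟩ hx
  rcases p with s | j
  · have h1 : IsOpen ((({i} : Set ℕ) ×ˢ ({Psi.pt s} : Set Psi)) ×ˢ (univ : Set K)) :=
      ((isOpen_discrete _).prod (isOpen_pt s)).prod isOpen_univ
    refine mem_of_superset (h1.mem_nhds ⟨⟨rfl, rfl⟩, trivial⟩) ?_
    rintro ⟨⟨i', q⟩, k'⟩ ⟨⟨h2, h3⟩, -⟩ h4
    obtain ⟨i'', j, h5 | h5⟩ := hA h4 <;>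
    · simp only [Prod.mk.injEq] at h5
      rw [mem_singleton_iff] at h3
      simp only at h3
      rw [h5.1.2] at h3
      cases h3
  · have h1 : IsOpen ((({i} : Set ℕ) ×ˢ (bas j 0)) ×ˢ (univ : Set K)) :=
      ((isOpen_discrete _).prod (isOpen_bas j 0)).prod isOpen_univ
    have hF : (A ∩ {((i, Psi.br j), k0), ((i, Psi.br j), ek j)}).Finite :=
      (Set.toFinite _).subset inter_subset_right
    have h2 : IsOpen ((((({i} : Set ℕ) ×ˢ (bas j 0)) ×ˢ (univ : Set K))) ∩
        (A ∩ {((i, Psi.br j), k0), ((i, Psi.br j), ek j)})ᶜ) :=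
      h1.inter hF.isClosed.isOpen_compl
    refine mem_of_superset (h2.mem_nhds ⟨⟨⟨rfl, br_mem_bas _ _⟩, trivial⟩, fun h => hx h.1⟩) ?_
    rintro ⟨⟨i', q⟩, k'⟩ ⟨⟨⟨h3, h4⟩, -⟩, h5⟩ h6
    apply h5
    refine ⟨h6, ?_⟩
    rw [mem_singleton_iff] at h3
    simp only at h3 h4
    obtain ⟨i'', j', h7 | h7⟩ := hA h6
    · simp only [Prod.mk.injEq] at h7
      obtain ⟨⟨h8, h9⟩, h10⟩ := h7
      rw [h9] at h4
      rcases h4 with h | ⟨n, hn, h⟩
      · left
        rw [h9, h10, h3, h]
      · cases h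
    · simp only [Prod.mk.injEq] at h7
      obtain ⟨⟨h8, h9⟩, h10⟩ := h7
      rw [h9] at h4
      rcases h4 with h | ⟨n, hn, h⟩
      · right
        simp only [Psi.br.injEq] at h
        rw [h9, h10, h3, h]
        rfl
      · cases h

abbrev YY := Quotient (Setoid.ker rho)

/-- The quotient map. -/
noncomputable def ff : XX → YY := Quotient.mk _

theorem ff_eq {a b : XX} : ff a = ff b ↔ rho a = rho b := by
  rw [ff, Quotient.eq]
  exact Setoid.ker_def

theorem isClosedMap_ff : IsClosedMap ff := by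
  intro C hC
  have hq : IsQuotientMap ff := isQuotientMap_quotient_mk'
  rw [← hq.isClosed_preimage]
  have : ff ⁻¹' (ff '' C) = C ∪ {x | x ∈ SS ∧ ∃ c ∈ C, rho c = rho x} := by
    ext x
    constructor
    · rintro ⟨c, hc, hcx⟩
      have h1 := ff_eq.1 hcx
      rcases rho_eq h1 with rfl | h2
      · exact Or.inl hc
      · exact Or.inr ⟨h2, c, hc, h1⟩
    · rintro (hx | ⟨-, c, hc, h⟩)
      · exact ⟨x, hx, rfl⟩
      · exact ⟨c, hc, ff_eq.2 h⟩
  rw [this]
  exact hC.union (isClosed_sub fun x hx => hx.1)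

theorem perfect_ff : Perfect ff := by
  refine ⟨continuous_quotient_mk', isClosedMap_ff, Quotient.mk_surjective, fun y => ?_⟩
  obtain ⟨x, rfl⟩ := Quotient.mk_surjective y
  have : (ff ⁻¹' {ff x}).Finite := by
    refine (Set.toFinite ({rho x, (((rho x).1.1 + 1, (rho x).1.2), k0)} : Set XX)).subset ?_
    intro c hc
    have h1 : rho c = rho x := ff_eq.1 hc
    rcases rho_cases c with hc | ⟨i, j, hc, hc'⟩
    · left; rw [← h1, hc]
    · right
      rw [mem_singleton_iff, ← h1, hc', hc]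
  exact this.isCompact

theorem perfect_gg : Perfect (Prod.fst : XX → ℕ × Psi) := by
  refine ⟨continuous_fst, isClosedMap_fst_of_compactSpace, Prod.fst_surjective, fun y => ?_⟩
  have : (Prod.fst ⁻¹' {y} : Set XX) = {y} ×ˢ univ := by
    ext x; simp
  rw [this]
  exact isCompact_singleton.prod isCompact_univ

theorem tendsto_X (i : ℕ) (x : ℕ → Bool) (k : K) :
    Tendsto (fun n => (((i, Psi.pt (pre x n)), k) : XX)) atTop (𝓝 ((i, Psi.br x), k)) := by
  rw [nhds_prod_eq, nhds_prod_eq]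
  exact (tendsto_const_pure.mono_right (pure_le_nhds _)).prodMk (tendsto_pt x) |>.prodMk
    (tendsto_const_nhds)

theorem no_perfect {E : Type*} [TopologicalSpace E] (h : YY → E) (hE : Developable E) :
    ¬ Perfect h := by
  intro hh
  have hH : Perfect (h ∘ ff) := hh.comp perfect_ff
  have hT2 : T2Space E := hH.t2
  have h1 : ∀ q : ℕ × List Bool, ∃ C : Set (ℕ → Bool), C.Countable ∧ ∀ k k' : K,
      (∀ j ∈ C, k j = k' j) → (h ∘ ff) ((q.1, Psi.pt q.2), k) = (h ∘ ff) ((q.1, Psi.pt q.2), k') := by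
    intro q
    exact countable_dep hE (fun k : K => (h ∘ ff) ((q.1, Psi.pt q.2), k))
      (hH.1.comp (continuous_const.prodMk continuous_id))
  choose C hC hC' using h1
  have hcount : (⋃ q, C q).Countable := countable_iUnion hC
  obtain ⟨j, hj⟩ : ∃ j, j ∉ ⋃ q, C q := by
    by_contra hcon
    have h0 : (univ : Set (ℕ → Bool)).Countable :=
      hcount.mono fun j _ => by_contra fun hj => hcon ⟨j, hj⟩
    rw [countable_univ_iff] at h0
    obtain ⟨f, hf⟩ := exists_surjective_nat (ℕ → Bool)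
    obtain ⟨n, hn⟩ := hf (fun n => !(f n n))
    have h00 := congrFun hn n
    simp at h00
  have h2 : ∀ i s, (h ∘ ff) ((i, Psi.pt s), k0) = (h ∘ ff) ((i, Psi.pt s), ek j) := by
    intro i s
    refine hC' (i, s) _ _ fun j' hj' => ?_
    have : j' ≠ j := by
      rintro rfl
      exact hj (mem_iUnion.2 ⟨_, hj'⟩)
    simp [k0, ek, this]
  have h3 : ∀ i, (h ∘ ff) ((i, Psi.br j), k0) = (h ∘ ff) ((i, Psi.br j), ek j) := by
    intro i
    have e1 := (hH.1.tendsto ((i, Psi.br j), k0)).comp (tendsto_X i j k0)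
    have e2 := (hH.1.tendsto ((i, Psi.br j), ek j)).comp (tendsto_X i j (ek j))
    refine tendsto_nhds_unique e1 (e2.congr fun n => ?_)
    exact (h2 i _).symm
  have h4 : ∀ i, (h ∘ ff) ((i, Psi.br j), k0) = (h ∘ ff) ((0, Psi.br j), k0) := by
    intro i
    induction i with
    | zero => rfl
    | succ i ih =>
      rw [← ih, h3 i]
      have : ff ((i + 1, Psi.br j), k0) = ff ((i, Psi.br j), ek j) := by
        rw [ff_eq, rho_succ, rho_ek]
      simp only [Function.comp_apply, this]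
  have h5 := (hH.2.2.2 ((h ∘ ff) ((0, Psi.br j), k0))).image
    (continuous_fst.comp continuous_fst : Continuous fun p : XX => p.1.1)
  have h6 := h5.finite_of_discrete
  refine Set.infinite_univ (h6.subset fun i _ => ?_)
  exact ⟨((i, Psi.br j), k0), h4 i, rfl⟩

universe u

/-- **Negative answer to Isiwata's question.** There are a locally compact Moore space `D`, a
locally compact Hausdorff space `X`, a perfect map `g : X → D` and a perfect map `f : X → Y`
(with `Y` again locally compact Hausdorff) such that `Y` admits no perfect map onto any developable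
space `E` (in any universe, and with no separation axiom assumed on `E`). -/
theorem result : ∃ (X D Y : Type) (_ : TopologicalSpace X) (_ : TopologicalSpace D)
    (_ : TopologicalSpace Y) (g : X → D) (f : X → Y),
    (Developable D ∧ T3Space D ∧ LocallyCompactSpace D) ∧ Perfect g ∧ Perfect f ∧
    (T2Space X ∧ LocallyCompactSpace X) ∧ (T2Space Y ∧ LocallyCompactSpace Y) ∧
    ∀ (E : Type u) [TopologicalSpace E] (h : Y → E), Developable E → ¬ Perfect h :=
  ⟨XX, ℕ × Psi, YY, inferInstance, inferInstance, inferInstance, Prod.fst, ff,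
    ⟨developable_D, inferInstance, inferInstance⟩, perfect_gg, perfect_ff,
    ⟨inferInstance, inferInstance⟩, ⟨perfect_ff.t2, perfect_ff.locallyCompact⟩,
    fun _ _ h hE => no_perfect h hE⟩

end Pool.Agent.Results.MP_5c431f_gt.IsiwataCounterexample
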